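import Mathlib

open Pointwise

namespace Pool.Agent.Results.MP_bc764a_al.SemisparseCriterion

variable {G : Type*} [Group G]

/-- `gen ρ I` is the subgroup generated by the elements `ρ i` with `i ∈ I`. -/
def gen {n : ℕ} (ρ : Fin n → G) (I : Set (Fin n)) : Subgroup G :=
  Subgroup.closure (ρ '' I)

/-- `conj S φ` is the conjugate subgroup `φ⁻¹ S φ`. -/
def conj (S : Subgroup G) (φ : G) : Subgroup G :=
  S.map (MulAut.conj φ⁻¹).toMonoidHom

/-- `ρ` is the ordered generating sequence of a string C-group of rank `n` with group `G`. -/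
structure IsStringCGroup {n : ℕ} (ρ : Fin n → G) : Prop where
  generates : gen ρ Set.univ = ⊤
  involution : ∀ i, orderOf (ρ i) = 2
  string : ∀ i j : Fin n, 2 ≤ |((i : ℕ) : ℤ) - ((j : ℕ) : ℤ)| → (ρ i * ρ j) ^ 2 = 1
  intersection : ∀ I J : Set (Fin n), gen ρ I ⊓ gen ρ J = gen ρ (I ∩ J)

/-- `S` is a semisparse subgroup of the group generated by `ρ 0, ..., ρ (n - 1)`. -/
structure IsSemisparse {n : ℕ} (ρ : Fin n → G) (S : Subgroup G) : Prop where
  le : S ≤ gen ρ Set.univ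
  cond1 : ∀ φ ∈ gen ρ Set.univ, ∀ i : Fin n,
    (conj S φ : Set G) ∩ ((gen ρ {l | l ≠ i} : Set G) * {ρ i}) = ∅
  cond2 : ∀ φ ∈ gen ρ Set.univ, ∀ i k j : Fin n, i < k → k < j →
    (gen ρ {l | i < l} : Set G) ∩ ((gen ρ {l | l < j} : Set G) * (conj S φ : Set G)) ⊆
      (gen ρ {l | l ≠ k} : Set G) *
        ((gen ρ {l | i < l} : Set G) ∩ (gen ρ {l | l < j} : Set G)) * (conj S φ : Set G)
  cond3 : ∀ i : Fin n, (i : ℕ) + 1 < n →
    (gen ρ {l | i < l} : Set G) ∩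
      ((gen ρ {l | (l : ℕ) < (i : ℕ) + 1} : Set G) * (S : Set G)) ⊆ (S : Set G)

lemma mem_conj {S : Subgroup G} {φ x : G} : x ∈ conj S φ ↔ φ * x * φ⁻¹ ∈ S := by
  unfold conj
  constructor
  · rintro ⟨y, hy, rfl⟩
    simpa [mul_assoc] using hy
  · intro h
    exact ⟨_, h, by simp [mul_assoc]⟩

lemma conj_conj (S : Subgroup G) (φ ψ : G) : conj (conj S φ) ψ = conj S (φ * ψ) := by
  ext x
  simp [mem_conj, mul_assoc]

lemma conj_one (S : Subgroup G) : conj S 1 = S := by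
  ext x
  simp [mem_conj]

/-- the interval subgroup. -/
def itv {n : ℕ} (ρ : Fin n → G) (a b : ℕ) : Subgroup G :=
  gen ρ {l | a ≤ (l : ℕ) ∧ (l : ℕ) < b}

lemma gen_mono {n : ℕ} (ρ : Fin n → G) {I J : Set (Fin n)} (h : I ⊆ J) : gen ρ I ≤ gen ρ J :=
  Subgroup.closure_mono (Set.image_mono h)

lemma itv_mono {n : ℕ} (ρ : Fin n → G) {a b a' b' : ℕ} (h : a' ≤ a) (h' : b ≤ b') :
    itv ρ a b ≤ itv ρ a' b' :=
  gen_mono ρ (by rintro l ⟨h1, h2⟩; exact ⟨by omega, by omega⟩)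

lemma gen_comp {m n : ℕ} (ρ : Fin n → G) (f : Fin m → Fin n) (I : Set (Fin m)) :
    gen (ρ ∘ f) I = gen ρ (f '' I) := by
  unfold gen
  rw [Set.image_comp]

/-- What we use of a string C-group, relative to the subgroup it generates. -/
structure Good {n : ℕ} (ρ : Fin n → G) : Prop where
  comm : ∀ i j : Fin n, (i : ℕ) + 2 ≤ (j : ℕ) → ρ i * ρ j = ρ j * ρ i
  inter : ∀ I J : Set (Fin n), gen ρ I ⊓ gen ρ J = gen ρ (I ∩ J)

lemma Good.itv_comm {n : ℕ} {ρ : Fin n → G} (h : Good ρ) {a b c d : ℕ} (hbc : b < c)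
    {x y : G} (hx : x ∈ itv ρ a b) (hy : y ∈ itv ρ c d) : x * y = y * x := by
  have key : itv ρ c d ≤ Subgroup.centralizer (itv ρ a b : Set G) := by
    unfold itv gen
    rw [Subgroup.closure_le]
    rintro _ ⟨j, ⟨hj1, hj2⟩, rfl⟩
    rw [Subgroup.centralizer_closure]
    simp only [SetLike.mem_coe, Subgroup.mem_centralizer_iff]
    rintro _ ⟨i, ⟨hi1, hi2⟩, rfl⟩
    exact h.comm i j (by omega)
  have := key hy
  rw [Subgroup.mem_centralizer_iff] at this
  exact this x hx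

lemma Good.itv_inter {n : ℕ} {ρ : Fin n → G} (h : Good ρ) (a b c d : ℕ)
    {x : G} (hx : x ∈ itv ρ a b) (hy : x ∈ itv ρ c d) : x ∈ itv ρ (max a c) (min b d) := by
  have : x ∈ gen ρ {l | a ≤ (l : ℕ) ∧ (l : ℕ) < b} ⊓ gen ρ {l | c ≤ (l : ℕ) ∧ (l : ℕ) < d} :=
    ⟨hx, hy⟩
  rw [h.inter] at this
  refine gen_mono ρ ?_ this
  rintro l ⟨⟨h1, h2⟩, ⟨h3, h4⟩⟩
  exact ⟨by omega, by omega⟩

lemma Good.split {n : ℕ} {ρ : Fin n → G} (h : Good ρ) (k : Fin n) {g : G}
    (hg : g ∈ gen ρ {l | l ≠ k}) :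
    ∃ g₁ ∈ itv ρ 0 k, ∃ g₂ ∈ itv ρ (k + 1) n, g = g₁ * g₂ := by
  unfold gen at hg
  induction hg using Subgroup.closure_induction with
  | mem x hx =>
    obtain ⟨l, hl, rfl⟩ := hx
    have hl' : (l : ℕ) ≠ k := fun h => hl (Fin.ext h)
    rcases Nat.lt_or_gt_of_ne hl' with h1 | h1
    · exact ⟨ρ l, Subgroup.subset_closure ⟨l, ⟨Nat.zero_le _, h1⟩, rfl⟩, 1, one_mem _, by simp⟩
    · exact ⟨1, one_mem _, ρ l, Subgroup.subset_closure ⟨l, ⟨h1, l.2⟩, rfl⟩, by simp⟩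
  | one => exact ⟨1, one_mem _, 1, one_mem _, by simp⟩
  | mul x y hx hy ihx ihy =>
    obtain ⟨a, ha, b, hb, rfl⟩ := ihx
    obtain ⟨c, hc, d, hd, rfl⟩ := ihy
    refine ⟨a * c, mul_mem ha hc, b * d, mul_mem hb hd, ?_⟩
    have := h.itv_comm (Nat.lt_succ_self (k : ℕ)) hc hb
    calc a * b * (c * d) = a * (b * c) * d := by group
      _ = a * (c * b) * d := by rw [this]
      _ = a * c * (b * d) := by group
  | inv x hx ih =>
    obtain ⟨a, ha, b, hb, rfl⟩ := ih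
    refine ⟨a⁻¹, inv_mem ha, b⁻¹, inv_mem hb, ?_⟩
    have := h.itv_comm (Nat.lt_succ_self (k : ℕ)) (inv_mem ha) (inv_mem hb)
    rw [mul_inv_rev, this]

/-- The factorisation property of a subgroup. -/
def Star {n : ℕ} (ρ : Fin n → G) (T : Subgroup G) : Prop :=
  ∀ i j : ℕ, i < j → j < n → ∀ x ∈ itv ρ (i + 1) n, ∀ y ∈ itv ρ 0 j, x * y ∈ T →
    ∃ a ∈ T, ∃ b ∈ T, a ∈ itv ρ (i + 1) n ∧ b ∈ itv ρ 0 j ∧ x * y = a * b

lemma gen_gt {n : ℕ} (ρ : Fin n → G) (i : Fin n) : gen ρ {l | i < l} = itv ρ (i + 1) n := by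
  unfold itv
  congr 1
  ext l
  simp only [Set.mem_ofPred_eq, Fin.lt_def]
  have := l.2
  omega

lemma gen_lt {n : ℕ} (ρ : Fin n → G) (j : Fin n) : gen ρ {l | l < j} = itv ρ 0 j := by
  unfold itv
  congr 1
  ext l
  simp only [Set.mem_ofPred_eq, Fin.lt_def]
  omega

lemma gen_lt' {n : ℕ} (ρ : Fin n → G) (j : ℕ) : gen ρ {l | (l : ℕ) < j} = itv ρ 0 j := by
  unfold itv
  congr 1
  ext l
  simp only [Set.mem_ofPred_eq]
  omega

lemma gen_univ {n : ℕ} (ρ : Fin n → G) : gen ρ Set.univ = itv ρ 0 n := by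
  unfold itv
  congr 1
  ext l
  simp

lemma star_aux {n : ℕ} {ρ : Fin n → G} (h : Good ρ) (S : Subgroup G)
    (hS : ∀ φ ∈ gen ρ Set.univ, IsSemisparse ρ (conj S φ)) :
    ∀ d i j : ℕ, j = i + d → 0 < d → j < n → ∀ φ ∈ gen ρ Set.univ,
      ∀ x ∈ itv ρ (i + 1) n, ∀ y ∈ itv ρ 0 j, ∀ s ∈ conj S φ, x = y * s →
      ∃ w ∈ itv ρ (i + 1) j, ∃ t ∈ conj S φ, x = w * t := by
  intro d
  induction d using Nat.strong_induction_on with
  | _ d ih =>
    intro i j hij hd hjn φ hφ x hx y hy s hs hxy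
    rcases Nat.lt_or_ge 1 d with hd1 | hd1
    · -- apply condition 2 with `k = i + 1`
      have hk : i + 1 < n := by omega
      have h2 := (hS φ hφ).cond2 1 (one_mem _) ⟨i, by omega⟩ ⟨i + 1, hk⟩ ⟨j, hjn⟩
        (by simp [Fin.lt_def]) (by simp only [Fin.lt_def]; omega)
      rw [conj_one, gen_gt, gen_lt] at h2
      obtain ⟨_, ⟨g, hg, v, ⟨hv1, hv2⟩, rfl⟩, τ, hτ, hx2⟩ :=
        h2 ⟨hx, y, hy, s, hs, hxy.symm⟩
      obtain ⟨g₁, hg₁, g₂, hg₂, rfl⟩ := h.split ⟨i + 1, hk⟩ hg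
      simp only at hv1 hv2 hg₁ hg₂ hx2
      -- `v` lies in the interval group
      have hvuniv : v ∈ gen ρ Set.univ := by
        rw [gen_univ]; exact itv_mono ρ (Nat.zero_le _) le_rfl hv1
      have hv : v ∈ itv ρ (i + 1) j := by
        have := h.itv_inter _ _ _ _ hv1 hv2
        refine itv_mono ρ ?_ ?_ this <;> omega
      set ψ : G := φ * v⁻¹ with hψ
      have hψu : ψ ∈ gen ρ Set.univ := mul_mem hφ (inv_mem hvuniv)
      have up : ∀ t, t ∈ conj S φ → v * t * v⁻¹ ∈ conj S ψ := by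
        intro t ht
        rw [mem_conj] at ht ⊢
        have e : ψ * (v * t * v⁻¹) * ψ⁻¹ = φ * t * φ⁻¹ := by rw [hψ]; group
        rw [e]; exact ht
      have down : ∀ t, t ∈ conj S ψ → v⁻¹ * t * v ∈ conj S φ := by
        intro t ht
        rw [mem_conj] at ht ⊢
        have e : φ * (v⁻¹ * t * v) * φ⁻¹ = ψ * t * ψ⁻¹ := by rw [hψ]; group
        rw [e]; exact ht
      have hc12 : g₁ * g₂ = g₂ * g₁ := h.itv_comm (Nat.lt_succ_self _) hg₁ hg₂
      -- first use of the induction hypothesis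
      have hX : x * v⁻¹ ∈ itv ρ (i + 1) n := mul_mem hx (inv_mem hv1)
      have hg₂' : g₂ ∈ itv ρ (i + 1) n := itv_mono ρ (by omega) le_rfl hg₂
      have e1 : g₂⁻¹ * (x * v⁻¹) = g₁ * (v * τ * v⁻¹) := by
        rw [← hx2, hc12]; group
      obtain ⟨u, hu, σ₁, hσ₁, hu2⟩ := ih 1 hd1 i (i + 1) rfl one_pos hk ψ hψu
        (g₂⁻¹ * (x * v⁻¹)) (mul_mem (inv_mem hg₂') hX) g₁ hg₁ _ (up τ hτ) e1
      have hu0 : u ∈ itv ρ 0 (i + 1) := itv_mono ρ (Nat.zero_le _) le_rfl hu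
      have hcu : u * g₂ = g₂ * u := h.itv_comm (Nat.lt_succ_self _) hu0 hg₂
      have e2 : x * v⁻¹ = g₂ * (u * σ₁) := by rw [← hu2]; group
      have e3 : g₂ = (u⁻¹ * (y * v⁻¹)) * ((v * s * v⁻¹) * σ₁⁻¹) := by
        have e4 : g₂ = u⁻¹ * (x * v⁻¹) * σ₁⁻¹ := by
          rw [e2]
          calc g₂ = u⁻¹ * (u * g₂) := by group
            _ = u⁻¹ * (g₂ * u) := by rw [hcu]
            _ = u⁻¹ * (g₂ * (u * σ₁)) * σ₁⁻¹ := by group
        rw [e4, hxy]; group
      have hvj : v ∈ itv ρ 0 j := hv2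
      obtain ⟨w, hw, σ₃, hσ₃, hw2⟩ := ih (d - 1) (by omega) (i + 1) j (by omega) (by omega) hjn
        ψ hψu g₂ hg₂ (u⁻¹ * (y * v⁻¹))
        (mul_mem (inv_mem (itv_mono ρ le_rfl (by omega) hu0)) (mul_mem hy (inv_mem hvj)))
        _ (mul_mem (up s hs) (inv_mem hσ₁)) e3
      refine ⟨u * w * v, mul_mem (mul_mem (itv_mono ρ le_rfl (by omega) hu)
        (itv_mono ρ (by omega) le_rfl hw)) hv, v⁻¹ * (σ₃ * σ₁) * v,
        down _ (mul_mem hσ₃ hσ₁), ?_⟩
      calc x = (x * v⁻¹) * v := by group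
        _ = (g₂ * u) * σ₁ * v := by rw [e2]; group
        _ = (u * g₂) * σ₁ * v := by rw [hcu]
        _ = (u * (w * σ₃)) * σ₁ * v := by rw [← hw2]
        _ = u * w * v * (v⁻¹ * (σ₃ * σ₁) * v) := by group
    · -- condition 3
      have hd' : d = 1 := by omega
      subst hd'
      have h3 := (hS φ hφ).cond3 ⟨i, by omega⟩ (by simp only; omega)
      rw [gen_gt, gen_lt'] at h3
      subst hij
      have : x ∈ (conj S φ : Set G) := h3 ⟨hx, y, hy, s, hs, hxy.symm⟩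
      exact ⟨1, one_mem _, x, this, by simp⟩

lemma star_of_semisparse {n : ℕ} {ρ : Fin n → G} (h : Good ρ) (S : Subgroup G)
    (hS : ∀ φ ∈ gen ρ Set.univ, IsSemisparse ρ (conj S φ)) : Star ρ S := by
  intro i j hij hjn x hx y hy hxy
  obtain ⟨w, hw, t, ht, hwt⟩ := star_aux h S hS (j - i) i j (by omega) (by omega) hjn 1 (one_mem _)
    x⁻¹ (inv_mem hx) y hy (x * y)⁻¹ (by rw [conj_one]; exact inv_mem hxy) (by group)
  rw [conj_one] at ht
  refine ⟨t⁻¹, inv_mem ht, t * (x * y), mul_mem ht hxy, ?_, ?_, by group⟩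
  · have : t⁻¹ = x * w := by
      have : t = w⁻¹ * x⁻¹ := by rw [hwt]; group
      rw [this]; group
    rw [this]
    exact mul_mem hx (itv_mono ρ le_rfl (by omega) hw)
  · have : t * (x * y) = w⁻¹ * y := by
      have : t = w⁻¹ * x⁻¹ := by rw [hwt]; group
      rw [this]; group
    rw [this]
    exact mul_mem (inv_mem (itv_mono ρ (by omega) le_rfl hw)) hy

lemma IsStringCGroup.good {n : ℕ} {ρ : Fin n → G} (h : IsStringCGroup ρ) : Good ρ where
  comm i j hij := by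
    have h1 : ρ i * ρ i = 1 := by
      have := pow_orderOf_eq_one (ρ i)
      rwa [h.involution i, pow_two] at this
    have h2 : ρ j * ρ j = 1 := by
      have := pow_orderOf_eq_one (ρ j)
      rwa [h.involution j, pow_two] at this
    have h3 := h.string i j (by rw [le_abs]; right; omega)
    rw [pow_two] at h3
    calc ρ i * ρ j = ρ i * (ρ i * ρ j * (ρ i * ρ j)) * ρ j := by rw [h3]; group
      _ = (ρ i * ρ i) * (ρ j * ρ i) * (ρ j * ρ j) := by group
      _ = ρ j * ρ i := by rw [h1, h2]; group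
  inter := h.intersection

lemma Good.comp {m n : ℕ} {ρ : Fin n → G} (h : Good ρ) (f : Fin m → Fin n)
    (hf : Function.Injective f) (hf2 : ∀ i j : Fin m, (i : ℕ) + 2 ≤ j → (f i : ℕ) + 2 ≤ f j) :
    Good (ρ ∘ f) where
  comm i j hij := h.comm _ _ (hf2 i j hij)
  inter I J := by
    rw [gen_comp, gen_comp, gen_comp, h.inter, Set.image_inter hf]

lemma itv_succ {m : ℕ} (ρ : Fin (m + 1) → G) (a b : ℕ) :
    itv (ρ ∘ Fin.succ) a b = itv ρ (a + 1) (b + 1) := by
  unfold itv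
  rw [gen_comp]
  congr 1
  ext l
  simp only [Set.mem_image, Set.mem_ofPred_eq]
  constructor
  · rintro ⟨l, hl, rfl⟩
    simp only [Fin.val_succ]
    omega
  · rintro ⟨h1, h2⟩
    refine ⟨⟨(l : ℕ) - 1, by have := l.2; omega⟩, ?_, ?_⟩
    · simp only; omega
    · apply Fin.ext; simp only [Fin.val_succ]; omega

lemma itv_castSucc {m : ℕ} (ρ : Fin (m + 1) → G) (a b : ℕ) (hb : b ≤ m) :
    itv (ρ ∘ Fin.castSucc) a b = itv ρ a b := by
  unfold itv
  rw [gen_comp]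
  congr 1
  ext l
  simp only [Set.mem_image, Set.mem_ofPred_eq]
  constructor
  · rintro ⟨l, hl, rfl⟩
    simpa using hl
  · rintro ⟨h1, h2⟩
    exact ⟨⟨(l : ℕ), by omega⟩, ⟨h1, h2⟩, by apply Fin.ext; simp⟩

lemma gen_ne_zero {m : ℕ} (ρ : Fin (m + 1) → G) : gen ρ {l | l ≠ 0} = itv ρ 1 (m + 1) := by
  unfold itv
  congr 1
  ext l
  simp only [Set.mem_ofPred_eq, ne_eq, Fin.ext_iff, Fin.val_zero]
  have := l.2
  omega

lemma gen_ne_last {m : ℕ} (ρ : Fin (m + 1) → G) :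
    gen ρ {l | l ≠ Fin.last m} = itv ρ 0 m := by
  unfold itv
  congr 1
  ext l
  simp only [Set.mem_ofPred_eq, ne_eq, Fin.ext_iff, Fin.val_last]
  have := l.2
  omega

/-- The criterion. The ambient string C-group has rank `n = m + 1 ≥ 2`. -/
theorem result {m : ℕ} (hm : 1 ≤ m) (ρ : Fin (m + 1) → G) (hρ : IsStringCGroup ρ)
    (S : Subgroup G)
    (h0 : ∀ φ : G, IsSemisparse (fun i : Fin m => ρ i.succ) (conj S φ ⊓ gen ρ {l | l ≠ 0}))
    (h1 : ∀ φ : G,
      IsSemisparse (fun i : Fin m => ρ i.castSucc) (conj S φ ⊓ gen ρ {l | l ≠ Fin.last m}))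
    (h2 : ∀ φ : G,
      (conj S φ : Set G) ∩ ((gen ρ {l | l ≠ 0} : Set G) * (gen ρ {l | l ≠ Fin.last m} : Set G)) =
        ((conj S φ ⊓ gen ρ {l | l ≠ 0} : Subgroup G) : Set G) *
          ((conj S φ ⊓ gen ρ {l | l ≠ Fin.last m} : Subgroup G) : Set G)) :
    ∀ ψ : G, IsSemisparse ρ (conj S ψ) := by
  have hG : Good ρ := hρ.good
  have hG0 : Good (ρ ∘ Fin.succ) := hG.comp _ (Fin.succ_injective m) (by
    intro i j hij; simp only [Fin.val_succ]; omega)
  have hG1 : Good (ρ ∘ Fin.castSucc) := hG.comp _ (Fin.castSucc_injective m) (by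
    intro i j hij; simpa using hij)
  have conj_inf : ∀ (T K : Subgroup G) (φ : G), φ ∈ K → conj (T ⊓ K) φ = conj T φ ⊓ K := by
    intro T K φ hφ
    ext x
    simp only [mem_conj, Subgroup.mem_inf]
    refine and_congr Iff.rfl ⟨fun h => ?_, fun h => ?_⟩
    · have : x = φ⁻¹ * (φ * x * φ⁻¹) * φ := by group
      rw [this]; exact mul_mem (mul_mem (inv_mem hφ) h) hφ
    · exact mul_mem (mul_mem hφ h) (inv_mem hφ)
  -- the two sections satisfy the factorisation property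
  have hu0 : gen (ρ ∘ Fin.succ) Set.univ = gen ρ {l | l ≠ 0} := by
    rw [gen_univ, itv_succ, gen_ne_zero]
  have hu1 : gen (ρ ∘ Fin.castSucc) Set.univ = gen ρ {l | l ≠ Fin.last m} := by
    rw [gen_univ, itv_castSucc _ _ _ le_rfl, gen_ne_last]
  have star0 : ∀ φ : G, Star (ρ ∘ Fin.succ) (conj S φ ⊓ gen ρ {l | l ≠ 0}) := by
    intro φ
    refine star_of_semisparse hG0 _ (fun χ hχ => ?_)
    rw [hu0] at hχ
    rw [conj_inf _ _ _ hχ, conj_conj]
    exact h0 (φ * χ)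
  have star1 : ∀ φ : G, Star (ρ ∘ Fin.castSucc) (conj S φ ⊓ gen ρ {l | l ≠ Fin.last m}) := by
    intro φ
    refine star_of_semisparse hG1 _ (fun χ hχ => ?_)
    rw [hu1] at hχ
    rw [conj_inf _ _ _ hχ, conj_conj]
    exact h1 (φ * χ)
  -- hence so does `S` and all its conjugates
  have star : ∀ φ : G, Star ρ (conj S φ) := by
    intro φ i j hij hj x hx y hy hxy
    have hx0 : x ∈ gen ρ {l | l ≠ 0} := by
      rw [gen_ne_zero]; exact itv_mono ρ (by omega) le_rfl hx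
    have hy1 : y ∈ gen ρ {l | l ≠ Fin.last m} := by
      rw [gen_ne_last]; exact itv_mono ρ (by omega) (by omega) hy
    have hmem : x * y ∈ (conj S φ : Set G) ∩
        ((gen ρ {l | l ≠ 0} : Set G) * (gen ρ {l | l ≠ Fin.last m} : Set G)) :=
      ⟨hxy, x, hx0, y, hy1, rfl⟩
    rw [h2 φ] at hmem
    obtain ⟨a, ⟨haS, ha0⟩, b, ⟨hbS, hb1⟩, hab⟩ := hmem
    simp only at hab
    simp only [SetLike.mem_coe] at haS ha0 hbS hb1
    rw [gen_ne_zero] at ha0
    rw [gen_ne_last] at hb1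
    have hxm : x ∈ itv ρ 1 (m + 1) := itv_mono ρ (by omega) le_rfl hx
    have hym : y ∈ itv ρ 0 m := itv_mono ρ le_rfl (by omega) hy
    have hw0 : x⁻¹ * a ∈ itv ρ 1 (m + 1) := mul_mem (inv_mem hxm) ha0
    have hw1 : x⁻¹ * a ∈ itv ρ 0 m := by
      have : x⁻¹ * a = y * b⁻¹ := by
        have : a = x * y * b⁻¹ := by rw [← hab]; group
        rw [this]; group
      rw [this]; exact mul_mem hym (inv_mem hb1)
    have hw : x⁻¹ * a ∈ itv ρ 1 m := by
      have := hG.itv_inter _ _ _ _ hw0 hw1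
      refine itv_mono ρ ?_ ?_ this <;> omega
    -- step 1: make the first factor lie in `Γ_{>i}`
    obtain ⟨a₁, ha₁S, a₂, ha₂S, ha₁, ha₂, haa⟩ : ∃ a₁ ∈ conj S φ, ∃ a₂ ∈ conj S φ,
        a₁ ∈ itv ρ (i + 1) (m + 1) ∧ a₂ ∈ itv ρ 1 m ∧ a = a₁ * a₂ := by
      rcases Nat.eq_zero_or_pos i with hi | hi
      · subst hi
        exact ⟨a, haS, 1, one_mem _, ha0, one_mem _, by simp⟩
      · have hs := star0 φ (i - 1) (m - 1) (by omega) (by omega) x
          (by rw [itv_succ]; exact itv_mono ρ (by omega) le_rfl hx) (x⁻¹ * a)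
          (by rw [itv_succ]; exact itv_mono ρ (by omega) (by omega) hw)
          (by
            have : x * (x⁻¹ * a) = a := by group
            rw [this]; exact ⟨haS, by rw [gen_ne_zero]; exact ha0⟩)
        obtain ⟨a₁, h₁, a₂, h₂, h₃, h₄, h₅⟩ := hs
        rw [itv_succ] at h₃ h₄
        refine ⟨a₁, h₁.1, a₂, h₂.1, itv_mono ρ (by omega) le_rfl h₃,
          itv_mono ρ (by omega) (by omega) h₄, ?_⟩
        rw [← h₅]; group
    -- step 2: the remaining factor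
    have hb' : a₂ * b ∈ conj S φ := mul_mem ha₂S hbS
    have hb'm : a₂ * b ∈ itv ρ 0 m := mul_mem (itv_mono ρ (by omega) le_rfl ha₂) hb1
    have hxyab : x * y = a₁ * (a₂ * b) := by rw [← hab, haa]; group
    rcases Nat.lt_or_ge j m with hjm | hjm
    · have hv0 : a₁⁻¹ * x ∈ itv ρ (i + 1) (m + 1) := mul_mem (inv_mem ha₁) hx
      have hv1 : a₁⁻¹ * x ∈ itv ρ 0 m := by
        have : a₁⁻¹ * x = (a₂ * b) * y⁻¹ := by
          have : x = a₁ * (a₂ * b) * y⁻¹ := by rw [← hxyab]; group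
          rw [this]; group
        rw [this]; exact mul_mem hb'm (inv_mem hym)
      have hv : a₁⁻¹ * x ∈ itv ρ (i + 1) m := by
        have := hG.itv_inter _ _ _ _ hv0 hv1
        refine itv_mono ρ ?_ ?_ this <;> omega
      have hs := star1 φ i j hij hjm (a₁⁻¹ * x)
        (by rw [itv_castSucc _ _ _ le_rfl]; exact hv) y
        (by rw [itv_castSucc _ _ _ hjm.le]; exact hy)
        (by
          have : a₁⁻¹ * x * y = a₂ * b := by
            rw [mul_assoc, hxyab]; group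
          rw [this]; exact ⟨hb', by rw [gen_ne_last]; exact hb'm⟩)
      obtain ⟨b₁, k₁, b₂, k₂, k₃, k₄, k₅⟩ := hs
      rw [itv_castSucc _ _ _ le_rfl] at k₃
      rw [itv_castSucc _ _ _ hjm.le] at k₄
      refine ⟨a₁ * b₁, mul_mem ha₁S k₁.1, b₂, k₂.1,
        mul_mem ha₁ (itv_mono ρ le_rfl (by omega) k₃), k₄, ?_⟩
      rw [mul_assoc a₁, ← k₅]; group
    · have : j = m := by omega
      subst this
      exact ⟨a₁, ha₁S, a₂ * b, hb', ha₁, hb'm, hxyab⟩
  intro ψ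
  refine ⟨?_, ?_, ?_, ?_⟩
  · rw [hρ.generates]; exact le_top
  · intro φ _ i
    rw [conj_conj]
    set T := conj S (ψ * φ) with hT
    rw [Set.eq_empty_iff_forall_notMem]
    rintro s ⟨hsT, g, hg, r, hr, hgr⟩
    rw [Set.mem_singleton_iff] at hr
    subst hr
    obtain ⟨v, hv, u, hu, rfl⟩ := hG.split i hg
    simp only at hgr
    have hiG : ρ i ∈ itv ρ 0 (i + 1) :=
      Subgroup.subset_closure ⟨i, ⟨Nat.zero_le _, Nat.lt_succ_self _⟩, rfl⟩
    have huv : v * u = u * v := hG.itv_comm (Nat.lt_succ_self _) hv hu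
    rcases Nat.lt_or_ge (i : ℕ) m with him | him
    · have hvi : v * ρ i ∈ itv ρ 0 (i + 1) := mul_mem (itv_mono ρ le_rfl (by omega) hv) hiG
      obtain ⟨a, haT, b, hbT, ha, hb, hab⟩ := star (ψ * φ) i (i + 1) (by omega) (by omega)
        u hu (v * ρ i) hvi (by
          have : u * (v * ρ i) = s := by rw [← hgr, huv]; group
          rw [this]; exact hsT)
      have hk1 : u⁻¹ * a ∈ itv ρ (i + 1) (m + 1) := mul_mem (inv_mem hu) ha
      have hk2 : u⁻¹ * a = v * ρ i * b⁻¹ := by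
        have : a = u * (v * ρ i) * b⁻¹ := by rw [hab]; group
        rw [this]; group
      have hk3 : u⁻¹ * a ∈ itv ρ 0 (i + 1) := by
        rw [hk2]; exact mul_mem hvi (inv_mem hb)
      have hk4 := hG.itv_inter _ _ _ _ hk1 hk3
      have hk5 : u⁻¹ * a = 1 := by
        have e : {l : Fin (m + 1) | max ((i : ℕ) + 1) 0 ≤ (l : ℕ) ∧
            (l : ℕ) < min (m + 1) ((i : ℕ) + 1)} = ∅ := by
          rw [Set.eq_empty_iff_forall_notMem]
          rintro l ⟨q1, q2⟩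
          omega
        unfold itv gen at hk4
        rw [e, Set.image_empty, Subgroup.closure_empty] at hk4
        exact Subgroup.mem_bot.mp hk4
      have hb2 : b = v * ρ i := by
        have : v * ρ i * b⁻¹ = 1 := by rw [← hk2, hk5]
        exact (mul_inv_eq_one.mp this).symm
      have c1 := (h1 (ψ * φ)).cond1 1 (one_mem _) ⟨i, him⟩
      rw [conj_one, Set.eq_empty_iff_forall_notMem] at c1
      refine c1 b ⟨⟨hbT, ?_⟩, v, ?_, ρ i, ?_, hb2.symm⟩
      · rw [gen_ne_last]; exact itv_mono ρ le_rfl (by omega) hb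
      · have e : gen (fun i : Fin m => ρ i.castSucc) {l | l < ⟨(i : ℕ), him⟩} = itv ρ 0 i := by
          have := gen_lt (ρ ∘ Fin.castSucc) ⟨(i : ℕ), him⟩
          rw [itv_castSucc _ _ _ (by simp only; omega)] at this
          exact this
        have : v ∈ gen (fun i : Fin m => ρ i.castSucc) {l | l < ⟨(i : ℕ), him⟩} := by
          rw [e]; exact hv
        exact gen_mono _ (fun l hl => ne_of_lt hl) this
      · rw [Set.mem_singleton_iff]; rfl
    · have him' : (i : ℕ) = m := by have := i.2; omega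
      have hu1' : u = 1 := by
        have e : {l : Fin (m + 1) | (i : ℕ) + 1 ≤ (l : ℕ) ∧ (l : ℕ) < m + 1} = ∅ := by
          rw [Set.eq_empty_iff_forall_notMem]
          rintro l ⟨q1, q2⟩
          omega
        unfold itv gen at hu
        rw [e, Set.image_empty, Subgroup.closure_empty] at hu
        exact Subgroup.mem_bot.mp hu
      subst hu1'
      have hinv : ρ i * ρ i = 1 := by
        have := pow_orderOf_eq_one (ρ i)
        rwa [hρ.involution i, pow_two] at this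
      have hinv' : (ρ i)⁻¹ = ρ i := inv_eq_of_mul_eq_one_left hinv
      have hs' : ρ i * v⁻¹ ∈ T := by
        have : ρ i * v⁻¹ = s⁻¹ := by
          rw [← hgr, mul_one, mul_inv_rev, hinv']
        rw [this]; exact inv_mem hsT
      have hiG' : ρ i ∈ itv ρ (m - 1 + 1) (m + 1) :=
        Subgroup.subset_closure ⟨i, ⟨by omega, by omega⟩, rfl⟩
      rw [him'] at hv
      obtain ⟨a, haT, b, hbT, ha, hb, hab⟩ := star (ψ * φ) (m - 1) m (by omega) (by omega)
        (ρ i) hiG' v⁻¹ (inv_mem hv) hs'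
      have hk1 : (ρ i)⁻¹ * a ∈ itv ρ (m - 1 + 1) (m + 1) := mul_mem (inv_mem hiG') ha
      have hk2 : (ρ i)⁻¹ * a = v⁻¹ * b⁻¹ := by
        have : a = ρ i * v⁻¹ * b⁻¹ := by rw [hab]; group
        rw [this]; group
      have hk3 : (ρ i)⁻¹ * a ∈ itv ρ 0 m := by
        rw [hk2]; exact mul_mem (inv_mem hv) (inv_mem hb)
      have hk4 := hG.itv_inter _ _ _ _ hk1 hk3
      have hk5 : (ρ i)⁻¹ * a = 1 := by
        have e : {l : Fin (m + 1) | max (m - 1 + 1) 0 ≤ (l : ℕ) ∧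
            (l : ℕ) < min (m + 1) m} = ∅ := by
          rw [Set.eq_empty_iff_forall_notMem]
          rintro l ⟨q1, q2⟩
          omega
        unfold itv gen at hk4
        rw [e, Set.image_empty, Subgroup.closure_empty] at hk4
        exact Subgroup.mem_bot.mp hk4
      have ha2 : a = ρ i := (inv_mul_eq_one.mp hk5).symm
      have c1 := (h0 (ψ * φ)).cond1 1 (one_mem _) ⟨m - 1, by omega⟩
      rw [conj_one, Set.eq_empty_iff_forall_notMem] at c1
      have ei : (⟨m - 1, by omega⟩ : Fin m).succ = i := by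
        apply Fin.ext; simp only [Fin.val_succ]; omega
      refine c1 a ⟨⟨haT, ?_⟩, 1, one_mem _, ρ i, ?_, by simp [ha2]⟩
      · rw [gen_ne_zero]; exact itv_mono ρ (by omega) le_rfl ha
      · rw [Set.mem_singleton_iff, ei]
  · intro φ _ i k j hik hkj
    rw [conj_conj]
    rw [Fin.lt_def] at hik hkj
    rintro x ⟨hx, y, hy, s, hs, hys⟩
    rw [SetLike.mem_coe, gen_gt] at hx
    rw [SetLike.mem_coe, gen_lt] at hy
    simp only at hys
    obtain ⟨a, haT, b, hbT, ha, hb, hab⟩ := star (ψ * φ) i j (by omega) j.2 x⁻¹ (inv_mem hx) y hy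
      (by
        have : x⁻¹ * y = s⁻¹ := by rw [← hys]; group
        rw [this]; exact inv_mem hs)
    have hw1 : x * a ∈ itv ρ (i + 1) (m + 1) := mul_mem hx ha
    have hw2 : x * a ∈ itv ρ 0 j := by
      have : x * a = y * b⁻¹ := by
        have : a = x⁻¹ * y * b⁻¹ := by rw [hab]; group
        rw [this]; group
      rw [this]; exact mul_mem hy (inv_mem hb)
    refine ⟨x * a, ⟨1, one_mem _, x * a, ⟨?_, ?_⟩, by simp⟩, a⁻¹, inv_mem haT, by simp⟩
    · rw [SetLike.mem_coe, gen_gt]; exact hw1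
    · rw [SetLike.mem_coe, gen_lt]; exact hw2
  · intro i hi
    rintro x ⟨hx, y, hy, s, hs, hys⟩
    rw [SetLike.mem_coe, gen_gt] at hx
    rw [SetLike.mem_coe, gen_lt'] at hy
    simp only at hys
    obtain ⟨a, haT, b, hbT, ha, hb, hab⟩ := star ψ i (i + 1) (by omega) (by omega) x⁻¹ (inv_mem hx)
      y hy (by
        have : x⁻¹ * y = s⁻¹ := by rw [← hys]; group
        rw [this]; exact inv_mem hs)
    have hw1 : x * a ∈ itv ρ (i + 1) (m + 1) := mul_mem hx ha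
    have hw2 : x * a ∈ itv ρ 0 (i + 1) := by
      have : x * a = y * b⁻¹ := by
        have : a = x⁻¹ * y * b⁻¹ := by rw [hab]; group
        rw [this]; group
      rw [this]; exact mul_mem hy (inv_mem hb)
    have hw := hG.itv_inter _ _ _ _ hw1 hw2
    have e : {l : Fin (m + 1) | max ((i : ℕ) + 1) 0 ≤ (l : ℕ) ∧
        (l : ℕ) < min (m + 1) ((i : ℕ) + 1)} = ∅ := by
      rw [Set.eq_empty_iff_forall_notMem]
      rintro l ⟨q1, q2⟩
      omega
    unfold itv gen at hw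
    rw [e, Set.image_empty, Subgroup.closure_empty] at hw
    have hxa : x * a = 1 := Subgroup.mem_bot.mp hw
    have : x = a⁻¹ := eq_inv_of_mul_eq_one_left hxa
    rw [this]; exact inv_mem haT

end Pool.Agent.Results.MP_bc764a_al.SemisparseCriterion
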